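import Mathlib
import Pool.Agent.Y766.R8.Stm

/-!
A small number prime to `p` that does not divide a given nonzero integer.
-/

set_option autoImplicit false

namespace Pool.Agent.X108.L0

open Finset Pool.Agent.Y766.R8

theorem l0ex : S_L0 := by
  classical
  intro δ hδ
  obtain ⟨k, hk⟩ := exists_nat_ge (2 / δ)
  have hkδ : 2 ≤ δ * k := by
    rw [div_le_iff₀ hδ] at hk
    linarith
  obtain ⟨S, hScard, hSp⟩ : ∃ S : Finset ℕ, S.card = k + 1 ∧ ∀ x ∈ S, Nat.Prime x := by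
    obtain ⟨S, hS1, hS2⟩ := Nat.infinite_setOf_prime.exists_subset_card_eq (k + 1)
    exact ⟨S, hS2, fun x hx => hS1 hx⟩
  obtain ⟨B, hB⟩ : ∃ B : ℕ, B = ∏ x ∈ S, x := ⟨_, rfl⟩
  have hB1 : 1 ≤ B := by
    rw [hB]
    exact Nat.one_le_iff_ne_zero.2 (prod_ne_zero_iff.2 fun x hx => (hSp x hx).ne_zero)
  refine ⟨B + 1, ?_⟩
  intro p hp Q hQ a ha haQ
  by_contra hcon
  push Not at hcon
  have hB1' : (1 : ℝ) ≤ B := by exact_mod_cast hB1
  have hQ1 : 1 ≤ Q := by linarith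
  have hQ0 : 0 < Q := by linarith
  have hY1 : 1 ≤ Q ^ δ := Real.one_le_rpow hQ1 hδ.le
  obtain ⟨n, hn⟩ : ∃ n : ℕ, n = ⌊Q ^ δ⌋₊ := ⟨_, rfl⟩
  have hn1 : 1 ≤ n := by rw [hn]; exact (Nat.one_le_floor_iff _).2 hY1
  have hnle : (n : ℝ) ≤ Q ^ δ := by rw [hn]; exact Nat.floor_le (by linarith)
  have hnlt : Q ^ δ < n + 1 := by rw [hn]; exact Nat.lt_floor_add_one _
  -- the prime powers
  have hdvd : ∀ x ∈ S.erase p, ((x ^ Nat.log x n : ℕ) : ℤ) ∣ a := by
    intro x hx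
    rw [mem_erase] at hx
    have hxp := hSp x hx.2
    have h1 : x ^ Nat.log x n ≤ n := Nat.pow_log_le_self x (by omega)
    apply hcon (x ^ Nat.log x n) (Nat.one_le_pow _ _ hxp.pos)
    · refine le_trans ?_ hnle
      exact_mod_cast h1
    · intro h
      have h2 := hp.dvd_of_dvd_pow h
      rw [Nat.prime_dvd_prime_iff_eq hp hxp] at h2
      exact hx.1 h2.symm
  have hprod : ((∏ x ∈ S.erase p, x ^ Nat.log x n : ℕ) : ℤ) ∣ a := by
    rw [Nat.cast_prod]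
    apply Finset.prod_dvd_of_coprime
    · intro x hx y hy hxy
      rw [mem_coe, mem_erase] at hx hy
      have : Nat.Coprime (x ^ Nat.log x n) (y ^ Nat.log y n) :=
        Nat.Coprime.pow _ _ ((Nat.coprime_primes (hSp x hx.2) (hSp y hy.2)).2 hxy)
      exact Nat.isCoprime_iff_coprime.2 this
    · exact hdvd
  have hle : ((∏ x ∈ S.erase p, x ^ Nat.log x n : ℕ) : ℝ) ≤ Q := by
    have h1 := Int.le_of_dvd (abs_pos.2 ha) ((dvd_abs _ _).2 hprod)
    refine le_trans ?_ haQ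
    exact_mod_cast h1
  -- the lower bound
  have hlow : (Q ^ δ) ^ k ≤ ((∏ x ∈ S.erase p, x ^ Nat.log x n : ℕ) : ℝ) * B := by
    have hc : k ≤ (S.erase p).card := by
      have := pred_card_le_card_erase (s := S) (a := p)
      omega
    have h1 : ∀ x ∈ S.erase p, Q ^ δ ≤ (x : ℝ) ^ Nat.log x n * x := by
      intro x hx
      rw [mem_erase] at hx
      have h2 := Nat.lt_pow_succ_log_self (hSp x hx.2).one_lt n
      have h3 : ((n + 1 : ℕ) : ℝ) ≤ ((x ^ (Nat.log x n).succ : ℕ) : ℝ) := by exact_mod_cast h2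
      push_cast at h3
      rw [pow_succ] at h3
      linarith
    have hBe : ((∏ x ∈ S.erase p, x : ℕ) : ℝ) ≤ B := by
      rw [hB]
      have : ∏ x ∈ S.erase p, x ≤ ∏ x ∈ S, x :=
        prod_le_prod_of_subset_of_one_le' (erase_subset _ _) fun x hx _ => (hSp x hx).one_le
      exact_mod_cast this
    calc (Q ^ δ) ^ k ≤ (Q ^ δ) ^ (S.erase p).card := pow_le_pow_right₀ hY1 hc
      _ = ∏ x ∈ S.erase p, Q ^ δ := by rw [prod_const]
      _ ≤ ∏ x ∈ S.erase p, ((x : ℝ) ^ Nat.log x n * x) :=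
          prod_le_prod (fun _ _ => by linarith) h1
      _ = ((∏ x ∈ S.erase p, x ^ Nat.log x n : ℕ) : ℝ) * ((∏ x ∈ S.erase p, x : ℕ) : ℝ) := by
          rw [prod_mul_distrib]; push_cast; rfl
      _ ≤ _ := by gcongr
  have hQ2 : Q ^ 2 ≤ (Q ^ δ) ^ k := by
    rw [← Real.rpow_natCast (Q ^ δ) k, ← Real.rpow_mul hQ0.le, ← Real.rpow_natCast Q 2]
    exact Real.rpow_le_rpow_of_exponent_le hQ1 (by push_cast; exact hkδ)
  have h1 : Q ^ 2 ≤ Q * B := by
    refine hQ2.trans (hlow.trans ?_)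
    gcongr
  nlinarith

end Pool.Agent.X108.L0
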