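import Mathlib
import Pool.Agent.Y870.R3.Phi
import Pool.Agent.Y766.R8.Stm

/-!
Short sums of a primitive character modulo `p ^ ν` over a residue class modulo `p ^ m`, `2 m ≤ ν`.
-/

set_option autoImplicit false

namespace Pool.Agent.X108.Inc

open Finset Pool.Agent.Y766.R8 Pool.Agent.Y870.R3

lemma norm_sub_one_lower {n : ℕ} [NeZero n] (c : ZMod n) (hc : c ≠ 0) :
    4 * |(c.valMinAbs : ℝ)| / n ≤ ‖(ZMod.stdAddChar c : ℂ) - 1‖ := by
  have hn : (0 : ℝ) < n := by exact_mod_cast Nat.pos_of_ne_zero (NeZero.ne n)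
  have hpi := Real.pi_pos
  have h1 : (ZMod.stdAddChar c : ℂ) = Complex.exp (Complex.I * ((2 * (Real.pi * (c.valMinAbs / n)) : ℝ) : ℂ)) := by
    conv_lhs => rw [← ZMod.coe_valMinAbs c]
    rw [ZMod.stdAddChar_coe]
    congr 1
    push_cast
    ring
  rw [h1, Complex.norm_exp_I_mul_ofReal_sub_one]
  have e2 : 2 * (Real.pi * ((c.valMinAbs : ℝ) / n)) / 2 = Real.pi * (c.valMinAbs / n) := by ring
  rw [e2, norm_mul, Real.norm_eq_abs, Real.norm_eq_abs, abs_two]
  have h2 : |(c.valMinAbs : ℝ)| ≤ n / 2 := by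
    have h3 := ZMod.natAbs_valMinAbs_le c
    have h4 : ((c.valMinAbs.natAbs : ℕ) : ℝ) ≤ ((n / 2 : ℕ) : ℝ) := by exact_mod_cast h3
    rw [Nat.cast_natAbs] at h4
    have h5 : ((n / 2 : ℕ) : ℝ) ≤ (n : ℝ) / 2 := Nat.cast_div_le
    push_cast at h4
    linarith
  have h3 : |Real.pi * ((c.valMinAbs : ℝ) / n)| ≤ Real.pi / 2 := by
    rw [abs_mul, abs_of_pos hpi, abs_div, abs_of_pos hn]
    have : |(c.valMinAbs : ℝ)| / n ≤ 1 / 2 := by
      rw [div_le_div_iff₀ hn (by norm_num)]; linarith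
    nlinarith
  have h4 := Real.mul_abs_le_abs_sin h3
  have h5 : 2 / Real.pi * |Real.pi * ((c.valMinAbs : ℝ) / n)| = 2 * |(c.valMinAbs : ℝ)| / n := by
    rw [abs_mul, abs_of_pos hpi, abs_div, abs_of_pos hn]
    field_simp
  rw [h5] at h4
  have : 4 * |(c.valMinAbs : ℝ)| / n = 2 * (2 * |(c.valMinAbs : ℝ)| / n) := by ring
  rw [this]
  linarith

/-- a geometric sum -/
lemma geo_bound {n : ℕ} [NeZero n] (c : ZMod n) (hc : c ≠ 0) (Z : ℕ) :
    ‖∑ z ∈ range Z, (ZMod.stdAddChar (c * (z : ZMod n)) : ℂ)‖ ≤ n / (2 * |(c.valMinAbs : ℝ)|) := by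
  have hn : (0 : ℝ) < n := by exact_mod_cast Nat.pos_of_ne_zero (NeZero.ne n)
  have hv : (0 : ℝ) < |(c.valMinAbs : ℝ)| := by
    rw [abs_pos]
    intro h
    apply hc
    have : c.valMinAbs = 0 := by exact_mod_cast h
    rwa [ZMod.valMinAbs_eq_zero] at this
  have hlow := norm_sub_one_lower c hc
  have hpos : (0 : ℝ) < 4 * |(c.valMinAbs : ℝ)| / n := by positivity
  have hz1 : (ZMod.stdAddChar c : ℂ) ≠ 1 := by
    intro h
    rw [h, sub_self, norm_zero] at hlow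
    linarith
  have e : ∀ z ∈ range Z, (ZMod.stdAddChar (c * (z : ZMod n)) : ℂ) = (ZMod.stdAddChar c : ℂ) ^ z := by
    intro z _
    rw [← AddChar.map_nsmul_eq_pow, nsmul_eq_mul, mul_comm]
  rw [sum_congr rfl e, geom_sum_eq hz1, norm_div]
  have hnum : ‖(ZMod.stdAddChar c : ℂ) ^ Z - 1‖ ≤ 2 := by
    refine (norm_sub_le _ _).trans ?_
    have : ‖(ZMod.stdAddChar c : ℂ)‖ = 1 := AddChar.norm_apply _ _
    rw [norm_pow, this, one_pow, norm_one]
    norm_num
  calc ‖(ZMod.stdAddChar c : ℂ) ^ Z - 1‖ / ‖(ZMod.stdAddChar c : ℂ) - 1‖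
      ≤ 2 / (4 * |(c.valMinAbs : ℝ)| / n) := by gcongr
    _ = _ := by field_simp; ring

section

variable {p ν r s : ℕ} [NeZero (p ^ r)] (hp : p.Prime) (hrs : r + s = ν) (hs : r ≤ s)
  (χ : DirichletCharacter ℂ (p ^ ν))

include hrs in
lemma cast_pow_mul (x y : ℤ) (h : ((x : ℤ) : ZMod (p ^ r)) = ((y : ℤ) : ZMod (p ^ r))) :
    (((p : ℤ) ^ s * x : ℤ) : ZMod (p ^ ν)) = (((p : ℤ) ^ s * y : ℤ) : ZMod (p ^ ν)) := by
  rw [ZMod.intCast_eq_intCast_iff_dvd_sub] at h ⊢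
  obtain ⟨k, hk⟩ := h
  refine ⟨k, ?_⟩
  push_cast at hk ⊢
  rw [← mul_sub, hk, ← hrs, pow_add]
  ring

include hrs hs in
lemma pow_two_zero (x : ℤ) : (((p : ℤ) ^ s * ((p : ℤ) ^ s * x) : ℤ) : ZMod (p ^ ν)) = 0 := by
  rw [ZMod.intCast_zmod_eq_zero_iff_dvd]
  push_cast
  rw [← mul_assoc, ← pow_add]
  exact (pow_dvd_pow _ (by omega)).mul_right _

/-- the restriction of `χ` to the numbers `1 + p ^ s z` -/
noncomputable def gch : AddChar (ZMod (p ^ r)) ℂ where
  toFun z := χ ((1 + (p : ℤ) ^ s * (z.val : ℤ) : ℤ) : ZMod (p ^ ν))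
  map_zero_eq_one' := by simp
  map_add_eq_mul' x y := by
    rw [← map_mul, ← Int.cast_mul]
    congr 1
    have h1 : (((p : ℤ) ^ s * ((x + y).val : ℤ) : ℤ) : ZMod (p ^ ν)) =
        (((p : ℤ) ^ s * ((x.val : ℤ) + y.val) : ℤ) : ZMod (p ^ ν)) := by
      apply cast_pow_mul hrs
      push_cast
      simp
    have h2 : (1 + (p : ℤ) ^ s * (x.val : ℤ)) * (1 + (p : ℤ) ^ s * (y.val : ℤ)) =
        1 + (p : ℤ) ^ s * ((x.val : ℤ) + y.val) +
          (p : ℤ) ^ s * ((p : ℤ) ^ s * ((x.val : ℤ) * y.val)) := by ring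
    have h3 : ((1 + (p : ℤ) ^ s * ((x.val : ℤ) + y.val) +
        (p : ℤ) ^ s * ((p : ℤ) ^ s * ((x.val : ℤ) * y.val)) : ℤ) : ZMod (p ^ ν)) =
        ((1 : ℤ) : ZMod (p ^ ν)) + (((p : ℤ) ^ s * ((x.val : ℤ) + y.val) : ℤ) : ZMod (p ^ ν)) := by
      rw [Int.cast_add, pow_two_zero hrs hs, add_zero, Int.cast_add]
    rw [h2, h3, Int.cast_add, h1]

include hp in
/-- the values of `χ` on the numbers `l + p ^ s z` -/
lemma chi_eq {A : ZMod (p ^ r)} (hA : ∀ z, gch hrs hs χ z = ZMod.stdAddChar (A * z)) (l : ℤ)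
    (hl : ¬ (p : ℤ) ∣ l) (z : ℤ) :
    χ ((l + (p : ℤ) ^ s * z : ℤ) : ZMod (p ^ ν)) =
      χ ((l : ℤ) : ZMod (p ^ ν)) * ZMod.stdAddChar (A * (l : ZMod (p ^ r))⁻¹ * (z : ZMod (p ^ r))) := by
  have hu : IsUnit ((l : ℤ) : ZMod (p ^ r)) := isUnit_int hp r hl
  rw [mul_assoc, ← hA]
  change _ = _ * χ ((1 + (p : ℤ) ^ s * ((((l : ZMod (p ^ r))⁻¹ * (z : ZMod (p ^ r))).val : ℕ) : ℤ) : ℤ) : ZMod (p ^ ν))
  rw [← map_mul, ← Int.cast_mul]
  congr 1
  have h1 : (((p : ℤ) ^ s * (l * ((((l : ZMod (p ^ r))⁻¹ * (z : ZMod (p ^ r))).val : ℕ) : ℤ)) : ℤ) : ZMod (p ^ ν)) =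
      (((p : ℤ) ^ s * z : ℤ) : ZMod (p ^ ν)) := by
    apply cast_pow_mul hrs
    push_cast
    rw [ZMod.natCast_val, ZMod.cast_id', id, ← mul_assoc, ZMod.mul_inv_of_unit _ hu, one_mul]
  have h2 : l * (1 + (p : ℤ) ^ s * ((((l : ZMod (p ^ r))⁻¹ * (z : ZMod (p ^ r))).val : ℕ) : ℤ)) =
      l + (p : ℤ) ^ s * (l * ((((l : ZMod (p ^ r))⁻¹ * (z : ZMod (p ^ r))).val : ℕ) : ℤ)) := by ring
  rw [h2, Int.cast_add, Int.cast_add, h1]

include hp in
/-- the parameter of a primitive character is a unit -/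
lemma unit_param (hp2 : p ≠ 2) (hr : 1 ≤ r) (hχ : χ.IsPrimitive) {A : ZMod (p ^ r)}
    (hA : ∀ z, gch hrs hs χ z = ZMod.stdAddChar (A * z)) : IsUnit A := by
  by_contra hu
  have hpA : (p : ℤ) ∣ (A.val : ℤ) := by
    by_contra h
    apply hu
    have h1 := isUnit_int hp r h
    rwa [Int.cast_natCast, ZMod.natCast_zmod_val] at h1
  have hA0 : A * (p : ZMod (p ^ r)) ^ (r - 1) = 0 := by
    obtain ⟨k, hk⟩ := hpA
    have h1 : A = ((A.val : ℤ) : ZMod (p ^ r)) := by rw [Int.cast_natCast, ZMod.natCast_zmod_val]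
    have h2 : (((p ^ r : ℕ) : ℤ) : ZMod (p ^ r)) = 0 := by
      rw [Int.cast_natCast]; exact ZMod.natCast_self _
    rw [h1, hk]
    have h3 : ((p * k : ℤ) : ZMod (p ^ r)) * (p : ZMod (p ^ r)) ^ (r - 1) =
        (((p ^ r : ℕ) : ℤ) : ZMod (p ^ r)) * (k : ZMod (p ^ r)) := by
      have h4 : (p : ZMod (p ^ r)) ^ r = (p : ZMod (p ^ r)) ^ (r - 1) * p := by
        rw [← pow_succ]; congr 1; omega
      push_cast
      rw [h4]
      ring
    rw [h3, h2, zero_mul]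
  have hone : ∀ z : ℤ, χ ((1 + (p : ℤ) ^ (ν - 1) * z : ℤ) : ZMod (p ^ ν)) = 1 := by
    intro z
    have h1 := chi_eq hp hrs hs χ hA 1 (Nat.prime_iff_prime_int.1 hp).not_dvd_one
      ((p : ℤ) ^ (r - 1) * z)
    have h2 : (p : ℤ) ^ (ν - 1) * z = (p : ℤ) ^ s * ((p : ℤ) ^ (r - 1) * z) := by
      rw [← mul_assoc, ← pow_add]
      congr 2
      omega
    rw [h2, h1]
    push_cast
    have hinv : ((1 : ZMod (p ^ r)))⁻¹ = 1 := ZMod.inv_one _
    rw [← mul_assoc, hinv, mul_one, hA0, zero_mul, AddChar.map_zero_eq_one, map_one, one_mul]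
  apply not_prim hp hp2 (by omega : 2 ≤ ν) χ hχ
  unfold PS
  have h1 := hone 1
  have h2 := hone (-1)
  rw [h1]
  have e : (1 - (p : ℤ) ^ (ν - 1) * 1 : ℤ) = 1 + (p : ℤ) ^ (ν - 1) * (-1) := by ring
  rw [e, h2]
  simp

end

lemma sum_range_decomp (f : ℕ → ℂ) (D : ℕ) (hD : 0 < D) (J : ℕ) :
    ∑ j ∈ range J, f j = ∑ i ∈ range D, ∑ z ∈ range ((J + D - 1 - i) / D), f (i + D * z) := by
  rw [← Finset.sum_fiberwise_of_maps_to (s := range J) (t := range D) (g := fun j => j % D)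
    (fun j _ => mem_range.2 (Nat.mod_lt _ hD))]
  apply sum_congr rfl
  intro i hi
  rw [mem_range] at hi
  symm
  refine sum_bij (fun z _ => i + D * z) ?_ ?_ ?_ ?_
  · intro z hz
    rw [mem_range, Nat.lt_iff_add_one_le, Nat.le_div_iff_mul_le hD] at hz
    rw [mem_filter, mem_range]
    refine ⟨?_, by rw [Nat.add_mul_mod_self_left, Nat.mod_eq_of_lt hi]⟩
    have : (z + 1) * D = D * z + D := by ring
    omega
  · intro z _ z' _ h
    have : D * z = D * z' := by omega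
    exact Nat.eq_of_mul_eq_mul_left hD this
  · intro j hj
    rw [mem_filter, mem_range] at hj
    refine ⟨j / D, ?_, ?_⟩
    · rw [mem_range, Nat.lt_iff_add_one_le, Nat.le_div_iff_mul_le hD]
      have h1 := Nat.mod_add_div j D
      have : (j / D + 1) * D = D * (j / D) + D := by ring
      omega
    · have h1 := Nat.mod_add_div j D
      omega
  · intro z _
    rfl

/-- the bound of the terms -/
noncomputable def psi (P : ℝ) (l0 : ℕ) (n : ℕ) : ℝ := if n = 0 then (l0 : ℝ) / P else 1 / (n * P)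

lemma sum_psi {P : ℝ} (hP : 0 < P) (l0 K : ℕ) (hK : 1 ≤ K) :
    ∑ n ∈ range (K + 1), psi P l0 n ≤ (l0 + 1 + Real.log K) / P := by
  rw [sum_range_succ']
  have e : ∀ n ∈ range K, psi P l0 (n + 1) = (1 / P) * ((n : ℝ) + 1)⁻¹ := by
    intro n _
    unfold psi
    rw [if_neg (by omega)]
    push_cast
    field_simp
  rw [sum_congr rfl e, ← mul_sum]
  have h1 : ∑ n ∈ range K, ((n : ℝ) + 1)⁻¹ ≤ 1 + Real.log K := by
    have := harmonic_le_one_add_log K
    unfold harmonic at this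
    push_cast at this
    exact this
  have h2 : psi P l0 0 = l0 / P := by unfold psi; rw [if_pos rfl]
  rw [h2]
  calc 1 / P * ∑ n ∈ range K, ((n : ℝ) + 1)⁻¹ + l0 / P ≤ 1 / P * (1 + Real.log K) + l0 / P := by
        gcongr
    _ = _ := by ring

theorem inc : S_INC := by
  intro p ν m hp hp2 hm h2m χ hχ
  obtain ⟨r, hr⟩ : ∃ r, r = ν / 2 := ⟨_, rfl⟩
  obtain ⟨s, hs⟩ : ∃ s, s = (ν + 1) / 2 := ⟨_, rfl⟩
  have hrs : r + s = ν := by omega
  have hs' : r ≤ s := by omega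
  have hmr : m ≤ r := by omega
  have hr1 : 1 ≤ r := by omega
  haveI : NeZero (p ^ r) := ⟨pow_ne_zero _ hp.ne_zero⟩
  haveI : NeZero (p ^ m) := ⟨pow_ne_zero _ hp.ne_zero⟩
  obtain ⟨A, hA⟩ := exists_char (gch hrs hs' χ)
  have hAu := unit_param hp hrs hs' χ hp2 hr1 hχ hA
  have hpi := Nat.prime_iff_prime_int.1 hp
  have hp1 : (1 : ℝ) < p := by exact_mod_cast hp.one_lt
  have hp0 : (0 : ℝ) < p := by linarith
  have hpm0 : (0 : ℤ) < (p : ℤ) ^ m := pow_pos (by exact_mod_cast hp.pos) _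
  have habs : ∀ (n : ℕ) [NeZero (p ^ n)] (x : ZMod (p ^ n)), 2 * |x.valMinAbs| ≤ (p : ℤ) ^ n := by
    intro n _ x
    have h1 := ZMod.natAbs_valMinAbs_le x
    have h2 : (x.valMinAbs.natAbs : ℤ) = |x.valMinAbs| := Int.natCast_natAbs _
    have h3 : 2 * x.valMinAbs.natAbs ≤ p ^ n := by omega
    rw [← h2]; exact_mod_cast h3
  obtain ⟨a, ha⟩ : ∃ a : ℤ, a = ((A.val : ℤ) : ZMod (p ^ m)).valMinAbs := ⟨_, rfl⟩
  have hadvd : (p : ℤ) ^ m ∣ (A.val : ℤ) - a := by
    have h1 : ((a : ℤ) : ZMod (p ^ m)) = ((A.val : ℤ) : ZMod (p ^ m)) := by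
      rw [ha, ZMod.coe_valMinAbs]
    have := (ZMod.intCast_eq_intCast_iff_dvd_sub _ _ _).1 h1
    exact_mod_cast this
  have hpA : ¬ (p : ℤ) ∣ (A.val : ℤ) := by
    intro h
    have h1 : IsUnit ((A.val : ℤ) : ZMod (p ^ r)) := by
      rwa [Int.cast_natCast, ZMod.natCast_zmod_val]
    rw [ZMod.coe_int_isUnit_iff_isCoprime] at h1
    push_cast at h1
    have h2 := (IsCoprime.pow_left_iff (by omega)).1 h1
    exact (hpi.coprime_iff_not_dvd.1 h2) h
  have hpa : ¬ (p : ℤ) ∣ a := by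
    intro h
    apply hpA
    have h1 : (p : ℤ) ∣ (A.val : ℤ) - a := (dvd_pow_self _ (by omega)).trans hadvd
    have := dvd_add h1 h
    simpa using this
  have h2a : 2 * |a| ≤ (p : ℤ) ^ m := by rw [ha]; exact habs m _
  refine ⟨a, hpa, h2a, ?_⟩
  intro l0 hpl hla J
  have hl0pos : 1 ≤ l0 := by
    rcases Nat.eq_zero_or_pos l0 with h | h
    · exact absurd (h ▸ dvd_zero p) hpl
    · exact h
  obtain ⟨D, hD⟩ : ∃ D : ℕ, D = p ^ (s - m) := ⟨_, rfl⟩
  have hDpos : 0 < D := by rw [hD]; exact pow_pos hp.pos _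
  let l : ℕ → ℤ := fun j => l0 + (p : ℤ) ^ m * j
  have hl : ∀ j, l j = l0 + (p : ℤ) ^ m * j := fun _ => rfl
  have hlp : ∀ j, ¬ (p : ℤ) ∣ l j := by
    intro j h
    apply hpl
    have h1 : (p : ℤ) ∣ (p : ℤ) ^ m * j := (dvd_pow_self _ (by omega)).mul_right _
    have h2 := dvd_sub h h1
    have h3 : l j - (p : ℤ) ^ m * j = (l0 : ℤ) := by rw [hl]; ring
    rw [h3] at h2
    exact_mod_cast h2
  let c : ℕ → ZMod (p ^ r) := fun j => A * ((l j : ℤ) : ZMod (p ^ r))⁻¹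
  have hlu : ∀ j, IsUnit ((l j : ℤ) : ZMod (p ^ r)) := fun j => isUnit_int hp r (hlp j)
  have hcl : ∀ j, c j * ((l j : ℤ) : ZMod (p ^ r)) = A := by
    intro j
    simp only [c]
    rw [mul_assoc, ZMod.inv_mul_of_unit _ (hlu j), mul_one]
  have hnt : Nontrivial (ZMod (p ^ r)) := by
    rw [ZMod.nontrivial_iff]
    exact (Nat.one_lt_pow (by omega) hp.one_lt).ne'
  have hc0 : ∀ j, c j ≠ 0 := by
    intro j h
    have h1 := hcl j
    rw [h, zero_mul] at h1
    exact hAu.ne_zero h1.symm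
  -- the sum
  have hsum : ‖∑ j ∈ range J, χ (((l0 : ℤ) + (p : ℤ) ^ m * j : ℤ) : ZMod (p ^ ν))‖ ≤
      ∑ i ∈ range D, ((p ^ r : ℕ) : ℝ) / (2 * |((c i).valMinAbs : ℝ)|) := by
    rw [sum_range_decomp _ D hDpos J]
    refine (norm_sum_le _ _).trans (sum_le_sum fun i _ => ?_)
    have e : ∀ z ∈ range ((J + D - 1 - i) / D),
        χ (((l0 : ℤ) + (p : ℤ) ^ m * ((i + D * z : ℕ) : ℤ) : ℤ) : ZMod (p ^ ν)) =
          χ ((l i : ℤ) : ZMod (p ^ ν)) * ZMod.stdAddChar (c i * (z : ZMod (p ^ r))) := by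
      intro z _
      have h1 := chi_eq hp hrs hs' χ hA (l i) (hlp i) z
      have h2 : (l0 : ℤ) + (p : ℤ) ^ m * ((i + D * z : ℕ) : ℤ) = l i + (p : ℤ) ^ s * (z : ℤ) := by
        rw [hl, hD]
        push_cast
        have : (p : ℤ) ^ s = (p : ℤ) ^ m * (p : ℤ) ^ (s - m) := by
          rw [← pow_add]; congr 1; omega
        rw [this]
        ring
      rw [h2, h1, Int.cast_natCast]
    rw [sum_congr rfl e, ← mul_sum, norm_mul]
    have h3 : ‖χ ((l i : ℤ) : ZMod (p ^ ν))‖ ≤ 1 := χ.norm_le_one _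
    refine (mul_le_mul_of_nonneg_right h3 (norm_nonneg _)).trans ?_
    rw [one_mul]
    exact geo_bound _ (hc0 i) _
  -- the residues modulo p^m
  have hl0u : IsUnit (((l0 : ℤ)) : ZMod (p ^ m)) := isUnit_int hp m (by exact_mod_cast hpl)
  obtain ⟨hh, hhh⟩ : ∃ hh : ℤ, hh = (((a : ℤ) : ZMod (p ^ m)) * ((l0 : ℤ) : ZMod (p ^ m))⁻¹).valMinAbs :=
    ⟨_, rfl⟩
  have hhmod : (p : ℤ) ^ m ∣ hh * l0 - a := by
    have h1 : ((a : ℤ) : ZMod (p ^ m)) = ((hh * l0 : ℤ) : ZMod (p ^ m)) := by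
      rw [Int.cast_mul, hhh, ZMod.coe_valMinAbs, mul_assoc, ZMod.inv_mul_of_unit _ hl0u, mul_one]
    have := (ZMod.intCast_eq_intCast_iff_dvd_sub _ _ _).1 h1
    exact_mod_cast this
  have hhabs : 2 * |hh| ≤ (p : ℤ) ^ m := by rw [hhh]; exact habs m _
  have hhlow : (p : ℤ) ^ m ≤ 2 * (l0 * |hh|) := by
    obtain ⟨k, hk⟩ := hhmod
    have hk0 : k ≠ 0 := by
      rintro rfl
      apply hla
      rw [mul_zero, sub_eq_zero] at hk
      exact ⟨hh, by rw [← hk]; ring⟩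
    have h1 : (p : ℤ) ^ m ≤ |hh * l0 - a| := by
      rw [hk, abs_mul, abs_of_pos hpm0]
      have : 1 ≤ |k| := Int.one_le_abs hk0
      nlinarith
    have h2 : |hh * l0 - a| ≤ |hh| * l0 + |a| := by
      refine (abs_sub _ _).trans ?_
      rw [abs_mul, Nat.abs_cast]
    have h3 : (l0 : ℤ) * |hh| = |hh| * l0 := mul_comm _ _
    linarith [h2a]
  have hcop : IsCoprime ((p : ℤ) ^ m) (l0 : ℤ) := by
    apply IsCoprime.pow_left
    exact (hpi.coprime_iff_not_dvd).2 (by exact_mod_cast hpl)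
  have hkex : ∀ i, ∃ k : ℤ, (c i).valMinAbs = hh + (p : ℤ) ^ m * k := by
    intro i
    have h1 : (p : ℤ) ^ r ∣ (c i).valMinAbs * l i - A.val := by
      have h1 : ((A.val : ℤ) : ZMod (p ^ r)) = (((c i).valMinAbs * l i : ℤ) : ZMod (p ^ r)) := by
        rw [Int.cast_mul, ZMod.coe_valMinAbs, hcl, Int.cast_natCast, ZMod.natCast_zmod_val]
      have := (ZMod.intCast_eq_intCast_iff_dvd_sub _ _ _).1 h1
      exact_mod_cast this
    have h2 : (p : ℤ) ^ m ∣ (c i).valMinAbs * l i - A.val := (pow_dvd_pow _ hmr).trans h1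
    have h3 : (p : ℤ) ^ m ∣ ((c i).valMinAbs - hh) * l0 := by
      have e : ((c i).valMinAbs - hh) * l0 = ((c i).valMinAbs * l i - A.val) -
          (p : ℤ) ^ m * ((c i).valMinAbs * i) - (hh * l0 - a) + (A.val - a) := by
        rw [hl]; ring
      rw [e]
      exact dvd_add (dvd_sub (dvd_sub h2 (dvd_mul_right _ _)) hhmod) hadvd
    obtain ⟨k, hk⟩ := hcop.dvd_of_dvd_mul_right h3
    exact ⟨k, by linarith⟩
  choose k hk using hkex
  obtain ⟨K, hK⟩ : ∃ K : ℕ, K = p ^ (r - m) := ⟨_, rfl⟩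
  have hKpos : 1 ≤ K := by rw [hK]; exact Nat.one_le_pow _ _ hp.pos
  have hKm : (p : ℤ) ^ r = (p : ℤ) ^ m * K := by
    rw [hK]
    push_cast
    rw [← pow_add]; congr 1; omega
  have hkK : ∀ i, (k i).natAbs ≤ K := by
    intro i
    have h1 := habs r (c i)
    have h2 : (p : ℤ) ^ m * |k i| ≤ |(c i).valMinAbs| + |hh| := by
      have e : (p : ℤ) ^ m * k i = (c i).valMinAbs - hh := by rw [hk]; ring
      calc (p : ℤ) ^ m * |k i| = |(p : ℤ) ^ m * k i| := by rw [abs_mul, abs_of_pos hpm0]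
        _ = |(c i).valMinAbs - hh| := by rw [e]
        _ ≤ _ := abs_sub _ _
    have h3 : (p : ℤ) ^ m ≤ (p : ℤ) ^ m * K := by
      have : (1 : ℤ) ≤ K := by exact_mod_cast hKpos
      nlinarith
    have h4 : (p : ℤ) ^ m * |k i| ≤ (p : ℤ) ^ m * K := by linarith
    have h5 : |k i| ≤ (K : ℤ) := le_of_mul_le_mul_left h4 hpm0
    have h6 : ((k i).natAbs : ℤ) = |k i| := Int.natCast_natAbs _
    exact_mod_cast h6 ▸ h5
  -- the terms
  have hPpos : (0 : ℝ) < (p : ℝ) ^ m := by positivity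
  have hterm : ∀ i, ((p ^ r : ℕ) : ℝ) / (2 * |((c i).valMinAbs : ℝ)|) ≤
      (p : ℝ) ^ r * psi ((p : ℝ) ^ m) l0 (k i).natAbs := by
    intro i
    rw [div_eq_mul_one_div]
    push_cast
    apply mul_le_mul_of_nonneg_left _ (by positivity)
    unfold psi
    have hl0R : (1 : ℝ) ≤ l0 := by exact_mod_cast hl0pos
    split_ifs with h0
    · have hk0 : k i = 0 := Int.natAbs_eq_zero.1 h0
      have e : (c i).valMinAbs = hh := by rw [hk, hk0]; ring
      rw [e]
      have h1 : (p : ℝ) ^ m ≤ 2 * (l0 * |(hh : ℝ)|) := by exact_mod_cast hhlow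
      have h2 : 0 < |(hh : ℝ)| := by
        by_contra h
        have : |(hh : ℝ)| = 0 := le_antisymm (not_lt.1 h) (abs_nonneg _)
        rw [this] at h1
        linarith
      rw [div_le_div_iff₀ (by positivity) hPpos]
      linarith
    · have h1 : (1 : ℝ) ≤ |(k i : ℝ)| := by
        have : 1 ≤ |k i| := Int.one_le_abs (fun h => h0 (by rw [h]; rfl))
        exact_mod_cast this
      have h2 : ((k i).natAbs : ℝ) = |(k i : ℝ)| := by
        rw [Nat.cast_natAbs, Int.cast_abs]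
      rw [h2]
      have h3 : |(k i : ℝ)| * (p : ℝ) ^ m ≤ 2 * |((c i).valMinAbs : ℝ)| := by
        have e : ((c i).valMinAbs : ℝ) = hh + (p : ℝ) ^ m * k i := by
          rw [hk]; push_cast; ring
        have h4 : 2 * |(hh : ℝ)| ≤ (p : ℝ) ^ m := by exact_mod_cast hhabs
        have h5 : |(p : ℝ) ^ m * k i| ≤ |((c i).valMinAbs : ℝ)| + |(hh : ℝ)| := by
          have e2 : (p : ℝ) ^ m * k i = ((c i).valMinAbs : ℝ) - hh := by rw [e]; ring
          rw [e2]; exact abs_sub _ _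
        rw [abs_mul, abs_of_pos hPpos] at h5
        nlinarith
      exact one_div_le_one_div_of_le (by positivity) h3
  -- the fibres
  have hfib : ∀ x : ℤ, ((range D).filter (fun i => k i = x)).card ≤ p ^ (s - r) := by
    intro x
    have hDK : D = K * p ^ (s - r) := by
      rw [hD, hK, ← pow_add]; congr 1; omega
    have h1 : ((range D).filter (fun i => k i = x)).card ≤ (range (p ^ (s - r))).card := by
      refine card_le_card_of_injOn (fun i => i / K) ?_ ?_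
      · intro i hi
        simp only [coe_filter, Set.mem_setOf_eq, mem_range] at hi
        simp only [coe_range, Set.mem_Iio]
        rw [Nat.div_lt_iff_lt_mul (by omega)]
        rw [hDK] at hi
        have := hi.1
        rwa [mul_comm] at this
      · intro i hi j hj hij
        simp only [coe_filter, Set.mem_setOf_eq, mem_range] at hi hj
        have h2 : c i = c j := by
          have h3 : (c i).valMinAbs = (c j).valMinAbs := by rw [hk, hk, hi.2, hj.2]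
          rw [← ZMod.coe_valMinAbs (c i), h3, ZMod.coe_valMinAbs]
        have h4 : ((l i : ℤ) : ZMod (p ^ r)) = ((l j : ℤ) : ZMod (p ^ r)) := by
          have h5 := hcl i
          rw [h2, ← hcl j] at h5
          have hcu : IsUnit (c j) := by
            have := hcl j
            exact isUnit_of_mul_isUnit_left (this ▸ hAu)
          exact hcu.mul_left_cancel h5
        rw [ZMod.intCast_eq_intCast_iff_dvd_sub] at h4
        have h5 : (K : ℤ) ∣ (j : ℤ) - i := by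
          have e : l j - l i = (p : ℤ) ^ m * ((j : ℤ) - i) := by rw [hl, hl]; ring
          rw [e] at h4
          push_cast at h4
          rw [hKm] at h4
          exact Int.dvd_of_mul_dvd_mul_left hpm0.ne' h4
        have h6 : i % K = j % K := by
          exact (Nat.modEq_iff_dvd.2 h5)
        have h7 := Nat.div_add_mod i K
        have h8 := Nat.div_add_mod j K
        simp only at hij
        rw [← h7, ← h8, hij, h6]
    rwa [card_range] at h1
  have hfib2 : ∀ n : ℕ, (((range D).filter (fun i => (k i).natAbs = n)).card : ℝ) ≤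
      2 * (p : ℝ) ^ (s - r) := by
    intro n
    have h1 : (range D).filter (fun i => (k i).natAbs = n) ⊆
        (range D).filter (fun i => k i = (n : ℤ)) ∪ (range D).filter (fun i => k i = -(n : ℤ)) := by
      intro i hi
      rw [mem_filter] at hi
      rw [mem_union, mem_filter, mem_filter]
      rcases Int.natAbs_eq (k i) with h | h
      · left; exact ⟨hi.1, by rw [h, hi.2]⟩
      · right; exact ⟨hi.1, by rw [h, hi.2]⟩
    have h2 := (card_le_card h1).trans (card_union_le _ _)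
    have h3 := hfib (n : ℤ)
    have h4 := hfib (-(n : ℤ))
    have h5 : ((range D).filter (fun i => (k i).natAbs = n)).card ≤ 2 * p ^ (s - r) := by omega
    exact_mod_cast h5
  have hpsi0 : ∀ n, 0 ≤ psi ((p : ℝ) ^ m) l0 n := by
    intro n
    unfold psi
    split_ifs <;> positivity
  have hlogp : 0 ≤ Real.log p := Real.log_nonneg hp1.le
  have hlogK : Real.log K ≤ ν * Real.log p := by
    rw [hK]
    push_cast
    rw [Real.log_pow]
    have : ((r - m : ℕ) : ℝ) ≤ ν := by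
      have : r - m ≤ ν := by omega
      exact_mod_cast this
    gcongr
  have hl0R : (1 : ℝ) ≤ l0 := by exact_mod_cast hl0pos
  refine hsum.trans ?_
  calc ∑ i ∈ range D, ((p ^ r : ℕ) : ℝ) / (2 * |((c i).valMinAbs : ℝ)|)
      ≤ ∑ i ∈ range D, (p : ℝ) ^ r * psi ((p : ℝ) ^ m) l0 (k i).natAbs :=
        sum_le_sum fun i _ => hterm i
    _ = (p : ℝ) ^ r * ∑ i ∈ range D, psi ((p : ℝ) ^ m) l0 (k i).natAbs := by rw [mul_sum]
    _ = (p : ℝ) ^ r * ∑ n ∈ range (K + 1), ∑ i ∈ (range D).filter (fun i => (k i).natAbs = n),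
          psi ((p : ℝ) ^ m) l0 (k i).natAbs := by
        rw [Finset.sum_fiberwise_of_maps_to]
        intro i _
        rw [mem_range]
        exact Nat.lt_succ_of_le (hkK i)
    _ = (p : ℝ) ^ r * ∑ n ∈ range (K + 1),
          (((range D).filter (fun i => (k i).natAbs = n)).card : ℝ) * psi ((p : ℝ) ^ m) l0 n := by
        congr 1
        refine sum_congr rfl fun n _ => ?_
        rw [← nsmul_eq_mul, ← sum_const]
        refine sum_congr rfl fun i hi => ?_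
        rw [mem_filter] at hi
        rw [hi.2]
    _ ≤ (p : ℝ) ^ r * ∑ n ∈ range (K + 1), (2 * (p : ℝ) ^ (s - r)) * psi ((p : ℝ) ^ m) l0 n := by
        gcongr with n _
        · exact hpsi0 n
        · exact hfib2 n
    _ = 2 * (p : ℝ) ^ s * ∑ n ∈ range (K + 1), psi ((p : ℝ) ^ m) l0 n := by
        rw [← mul_sum]
        have : (p : ℝ) ^ s = (p : ℝ) ^ r * (p : ℝ) ^ (s - r) := by
          rw [← pow_add]; congr 1; omega
        rw [this]
        ring
    _ ≤ 2 * (p : ℝ) ^ s * ((l0 + 1 + Real.log K) / (p : ℝ) ^ m) := by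
        gcongr
        exact sum_psi hPpos l0 K hKpos
    _ ≤ 2 * (p : ℝ) ^ s * ((5 * l0 * (1 + ν * Real.log p)) / (p : ℝ) ^ m) := by
        gcongr
        have h1 : 0 ≤ (ν : ℝ) * Real.log p := by positivity
        nlinarith
    _ = 10 * l0 * (p : ℝ) ^ ((ν + 1) / 2) * (1 + ν * Real.log p) / (p : ℝ) ^ m := by
        rw [← hs]
        ring

end Pool.Agent.X108.Inc
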